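import Mathlib

set_option autoImplicit false

/-!
# The case n = 2: units of a local monoid and labelled automata

`M` a monoid with `z ^ 2 = z ^ (2 + m)` for all `z`, `2 ≤ m`.  With `α = a b`, `β = a b b`,
`e = (α β) ^ m`, the elements `e (α ^ k β) e` and `e (α β ^ k) e` are units of `e M e`.
-/

namespace Pool.Agent.Lib.MP_604f1e_lc.NTwo

section Algebra

variable {M : Type*} [Monoid M] {m : ℕ}

/-- `z ^ j = z ^ (j + m)` for `2 ≤ j`. -/
theorem pow_add (h : ∀ z : M, z ^ 2 = z ^ (2 + m)) (z : M) (j : ℕ) (hj : 2 ≤ j) :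
    z ^ (j + m) = z ^ j := by
  obtain ⟨i, rfl⟩ : ∃ i, j = 2 + i := ⟨j - 2, by omega⟩
  calc z ^ (2 + i + m) = z ^ (2 + m) * z ^ i := by rw [← _root_.pow_add]; congr 1; omega
    _ = z ^ (2 + i) := by rw [← h, ← _root_.pow_add]

/-- Rule for the letter `α`. -/
theorem rule_alpha (h : ∀ z : M, z ^ 2 = z ^ (2 + m)) (s α : M) :
    s * α * s * α = (s * α) ^ (1 + m) * s * α := by
  calc s * α * s * α = (s * α) ^ 2 := by rw [pow_two]; simp only [mul_assoc]
    _ = (s * α) ^ (2 + m) := h _
    _ = (s * α) ^ (1 + m) * (s * α) := by rw [← pow_succ]; congr 1; omega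
    _ = _ := by simp only [mul_assoc]

theorem conj_pow (b s c : M) (k : ℕ) :
    b * (s * c * b) ^ k * (s * c) = (b * (s * c)) ^ (k + 1) := by
  induction k with
  | zero => simp
  | succ k ih =>
    rw [pow_succ' (b * (s * c)) (k + 1), ← ih, pow_succ' (s * c * b) k]
    simp only [mul_assoc]

/-- Rule for the letter `β = a b b`. -/
theorem rule_beta (h : ∀ z : M, z ^ 2 = z ^ (2 + m)) (s a b : M) :
    b * s * (a * b * b) * s * (a * b) = b * (s * (a * b * b)) ^ (1 + m) * s * (a * b) := by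
  have h1 := conj_pow b s (a * b) (1 + m)
  have h2 : (b * (s * (a * b))) ^ (1 + m + 1) = (b * (s * (a * b))) ^ 2 := by
    rw [h]; congr 1; omega
  calc b * s * (a * b * b) * s * (a * b) = (b * (s * (a * b))) ^ 2 := by
        rw [pow_two]; simp only [mul_assoc]
    _ = b * (s * (a * b) * b) ^ (1 + m) * (s * (a * b)) := by rw [h1, h2]
    _ = _ := by simp only [mul_assoc]

variable (a b : M)

/-- `α ^ (1 + k m) * (a b) = α * (a b)`. -/
theorem run_alpha (h : ∀ z : M, z ^ 2 = z ^ (2 + m)) (k : ℕ) :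
    (a * b) ^ (1 + k * m) * (a * b) = (a * b) * (a * b) := by
  induction k with
  | zero => simp
  | succ k ih =>
    rw [← ih, ← pow_succ, ← pow_succ]
    have : 1 + (k + 1) * m + 1 = (1 + k * m + 1) + m := by ring
    rw [this]
    exact pow_add h _ _ (by omega)

/-- `b β ^ (1 + k m) (a b) = b β (a b)`. -/
theorem run_beta (h : ∀ z : M, z ^ 2 = z ^ (2 + m)) (k : ℕ) :
    b * (a * b * b) ^ (1 + k * m) * (a * b) = b * (a * b * b) * (a * b) := by
  have key : ∀ j, b * (a * b * b) ^ j * (a * b) = (b * (a * b)) ^ (j + 1) := by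
    intro j
    have := conj_pow b 1 (a * b) j
    simpa using this
  have h1 := key (1 + k * m)
  have h2 := key 1
  rw [pow_one] at h2
  rw [h1, h2]
  induction k with
  | zero => simp
  | succ k ih =>
    have : 1 + (k + 1) * m + 1 = (1 + k * m + 1) + m := by ring
    rw [this, pow_add h _ _ (by omega)]
    exact ih (key _)

/-- Insertion after `α β`: `b αβα (ab) = b αβ(α^kβ)^m α (ab)`. -/
theorem insert_beta (h : ∀ z : M, z ^ 2 = z ^ (2 + m)) (hm : 1 ≤ m) (k : ℕ) :
    b * (a * b) * (a * b * b) * (a * b) * (a * b) =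
      b * (a * b) * (a * b * b) * ((a * b) ^ k * (a * b * b)) ^ m * (a * b) * (a * b) := by
  set α := a * b with hα
  set β := a * b * b with hβ
  have hβ' : β = α * b := rfl
  obtain ⟨p, hp⟩ : ∃ p, 1 + k * m = (p + 1) + k := by
    refine ⟨k * m - k, ?_⟩
    have : k ≤ k * m := Nat.le_mul_of_pos_right k hm
    omega
  -- run rules
  have r1 : ∀ X : M, α * β * X = α ^ (1 + k * m) * β * X := by
    intro X
    have h1 : α ^ (1 + k * m) * α = α * α := run_alpha a b h k
    calc α * β * X = (α * α) * (b * X) := by rw [hβ']; simp only [mul_assoc]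
      _ = (α ^ (1 + k * m) * α) * (b * X) := by rw [h1]
      _ = _ := by rw [hβ']; simp only [mul_assoc]
  have r2 : α * α = α ^ (1 + k * m) * α := (run_alpha a b h k).symm
  -- main rule in context `b`
  have r3 : b * α ^ k * β * α ^ k * α = b * (α ^ k * β) ^ (1 + m) * α ^ k * α :=
    rule_beta h (α ^ k) a b
  have r4 : ∀ X Y : M, α ^ (p + 1) * X = α ^ p * a * (b * X) := by
    intro X Y
    rw [pow_succ, hα]; simp only [mul_assoc]
  -- both sides equal the expanded word
  have e1 : b * α * β * α * α =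
      b * α ^ p * a * (b * α ^ k * β * α ^ k * α) * α ^ (p + 1) := by
    calc b * α * β * α * α = b * (α * β * (α * α)) := by simp only [mul_assoc]
      _ = b * (α ^ (1 + k * m) * β * (α ^ (1 + k * m) * α)) := by rw [← r2, ← r1]
      _ = b * ((α ^ p * a * (b * α ^ k)) * β * ((α ^ k * α ^ (p + 1)) * α)) := by
          rw [← r4 (α ^ k) 1, ← _root_.pow_add, ← _root_.pow_add, hp, add_comm k (p + 1)]
      _ = b * α ^ p * a * (b * α ^ k * β * α ^ k * (α ^ (p + 1) * α)) := by
          simp only [mul_assoc]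
      _ = _ := by rw [← pow_succ, pow_succ' α (p + 1)]; simp only [mul_assoc]
  have e2 : b * α * β * (α ^ k * β) ^ m * α * α =
      b * α ^ p * a * (b * (α ^ k * β) ^ (1 + m) * α ^ k * α) * α ^ (p + 1) := by
    symm
    calc b * α ^ p * a * (b * (α ^ k * β) ^ (1 + m) * α ^ k * α) * α ^ (p + 1)
        = b * (α ^ p * a * (b * ((α ^ k * β) ^ (1 + m)))) * (α ^ k * (α * α ^ (p + 1))) := by
          simp only [mul_assoc]
      _ = b * (α ^ (p + 1) * (α ^ k * β) ^ (1 + m)) * (α ^ k * (α ^ (p + 1) * α)) := by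
          rw [← r4 _ 1, ← pow_succ, ← pow_succ' α (p + 1)]
      _ = b * ((α ^ (p + 1) * α ^ k) * β * (α ^ k * β) ^ m) * ((α ^ k * α ^ (p + 1)) * α) := by
          rw [_root_.pow_add _ 1 m, pow_one]; simp only [mul_assoc]
      _ = b * (α ^ (1 + k * m) * β * (α ^ k * β) ^ m) * (α ^ (1 + k * m) * α) := by
          rw [← _root_.pow_add, ← _root_.pow_add, hp, add_comm k (p + 1)]
      _ = b * (α * β * (α ^ k * β) ^ m) * (α * α) := by rw [← r2, ← r1]
      _ = _ := by simp only [mul_assoc]
  rw [e1, e2, r3]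

/-- Insertion after `β α`: `b βαβ (ab) = b βα(β^kα)^m β (ab)`. -/
theorem insert_alpha (h : ∀ z : M, z ^ 2 = z ^ (2 + m)) (hm : 1 ≤ m) (k : ℕ) :
    b * (a * b * b) * (a * b) * (a * b * b) * (a * b) =
      b * (a * b * b) * (a * b) * ((a * b * b) ^ k * (a * b)) ^ m * (a * b * b) * (a * b) := by
  set α := a * b with hα
  set β := a * b * b with hβ
  have hβ' : β = α * b := rfl
  obtain ⟨p, hp⟩ : ∃ p, 1 + k * m = (p + 1) + k := by
    refine ⟨k * m - k, ?_⟩
    have : k ≤ k * m := Nat.le_mul_of_pos_right k hm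
    omega
  have run : b * β ^ (1 + k * m) * α = b * β * α := run_beta a b h k
  have r1 : b * β * α = b * β ^ (1 + k * m) * α := run.symm
  -- `α β α = α β^(1+km) α`
  have r2 : α * β * α = α * β ^ (1 + k * m) * α := by
    have : α = a * b := rfl
    calc α * β * α = a * (b * β * α) := by rw [this]; simp only [mul_assoc]
      _ = a * (b * β ^ (1 + k * m) * α) := by rw [r1]
      _ = _ := by rw [this]; simp only [mul_assoc]
  have r3 : β ^ k * α * β ^ k * α = (β ^ k * α) ^ (1 + m) * β ^ k * α :=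
    rule_alpha h (β ^ k) α
  -- `β^(p+1) α = α * (b β^p α)`
  have r5 : ∀ X : M, β ^ (p + 1) * X = α * (b * β ^ p * X) := by
    intro X
    rw [pow_succ' β p, hβ']; simp only [mul_assoc]
  have e1 : b * β * α * β * α =
      b * β ^ (p + 1) * (β ^ k * α * β ^ k * α) * (b * β ^ p * α) := by
    calc b * β * α * β * α = (b * β * α) * (β * α) := by simp only [mul_assoc]
      _ = b * β ^ (1 + k * m) * (α * β * α) := by rw [r1]; simp only [mul_assoc]
      _ = b * (β ^ (p + 1) * β ^ k) * (α * (β ^ k * β ^ (p + 1)) * α) := by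
          rw [r2, ← _root_.pow_add, ← _root_.pow_add, hp, add_comm k (p + 1)]
      _ = b * β ^ (p + 1) * (β ^ k * α * β ^ k * (β ^ (p + 1) * α)) := by
          simp only [mul_assoc]
      _ = _ := by rw [r5]; simp only [mul_assoc]
  have e2 : b * β * α * (β ^ k * α) ^ m * β * α =
      b * β ^ (p + 1) * ((β ^ k * α) ^ (1 + m) * β ^ k * α) * (b * β ^ p * α) := by
    symm
    calc b * β ^ (p + 1) * ((β ^ k * α) ^ (1 + m) * β ^ k * α) * (b * β ^ p * α)
        = b * β ^ (p + 1) * (β ^ k * α) ^ (1 + m) * (β ^ k * (α * (b * β ^ p * α))) := by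
          simp only [mul_assoc]
      _ = b * (β ^ (p + 1) * β ^ k) * (α * (β ^ k * α) ^ m) * (β ^ k * (β ^ (p + 1) * α)) := by
          rw [← r5, _root_.pow_add _ 1 m, pow_one]; simp only [mul_assoc]
      _ = b * β ^ (1 + k * m) * (α * (β ^ k * α) ^ m) * (β ^ (1 + k * m) * α) := by
          have q1 : β ^ k * (β ^ (p + 1) * α) = β ^ (1 + k * m) * α := by
            rw [← mul_assoc, ← _root_.pow_add, hp, add_comm k (p + 1)]
          rw [q1, ← _root_.pow_add, hp]
      _ = (b * β ^ (1 + k * m) * α) * (β ^ k * α) ^ m * (β ^ (1 + k * m) * α) := by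
          simp only [mul_assoc]
      _ = (b * β * α) * ((β ^ k * α) ^ m * β ^ (1 + k * m) * α) := by
          rw [run]; simp only [mul_assoc]
      _ = (b * β * α) * ((β ^ k * α) ^ m * β * α) := ?_
      _ = _ := by simp only [mul_assoc]
    -- the last run is preceded by `α = a b` (a letter `b`)
    obtain ⟨i, hi⟩ : ∃ i, m = i + 1 := ⟨m - 1, by omega⟩
    congr 1
    rw [hi, pow_succ]
    calc (β ^ k * α) ^ i * (β ^ k * α) * β ^ (1 + k * (i + 1)) * α
        = (β ^ k * α) ^ i * β ^ k * (α * β ^ (1 + k * m) * α) := by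
          rw [← hi]; simp only [mul_assoc]
      _ = (β ^ k * α) ^ i * β ^ k * (α * β * α) := by rw [← r2]
      _ = _ := by simp only [mul_assoc]
  rw [e1, e2, r3]

theorem ctx_beta (h : ∀ z : M, z ^ 2 = z ^ (2 + m)) (hm : 1 ≤ m) (k : ℕ) (Y X : M) :
    Y * b * (a * b) * (a * b * b) * (a * b) * (a * b * X) =
      Y * b * (a * b) * (a * b * b) * ((a * b) ^ k * (a * b * b)) ^ m * (a * b) * (a * b * X) := by
  have := insert_beta a b h hm k
  calc Y * b * (a * b) * (a * b * b) * (a * b) * (a * b * X)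
      = Y * (b * (a * b) * (a * b * b) * (a * b) * (a * b)) * X := by simp only [mul_assoc]
    _ = _ := by rw [this]; simp only [mul_assoc]

theorem ctx_alpha (h : ∀ z : M, z ^ 2 = z ^ (2 + m)) (hm : 1 ≤ m) (k : ℕ) (Y X : M) :
    Y * b * (a * b * b) * (a * b) * (a * b * b) * (a * b * X) =
      Y * b * (a * b * b) * (a * b) * ((a * b * b) ^ k * (a * b)) ^ m * (a * b * b) *
        (a * b * X) := by
  have := insert_alpha a b h hm k
  calc Y * b * (a * b * b) * (a * b) * (a * b * b) * (a * b * X)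
      = Y * (b * (a * b * b) * (a * b) * (a * b * b) * (a * b)) * X := by simp only [mul_assoc]
    _ = _ := by rw [this]; simp only [mul_assoc]

theorem shift_pow (x y : M) (n : ℕ) : x * (y * x) ^ n = (x * y) ^ n * x := by
  induction n with
  | zero => simp
  | succ n ih =>
    calc x * (y * x) ^ (n + 1) = (x * (y * x) ^ n) * (y * x) := by
          rw [pow_succ]; simp only [mul_assoc]
      _ = (x * y) ^ n * x * (y * x) := by rw [ih]
      _ = _ := by rw [pow_succ]; simp only [mul_assoc]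

/-- the idempotent `e = (α β) ^ m` -/
def ee (a b : M) (m : ℕ) : M := (a * b * (a * b * b)) ^ m

theorem ee_idem (h : ∀ z : M, z ^ 2 = z ^ (2 + m)) (hm : 2 ≤ m) :
    ee a b m * ee a b m = ee a b m := by
  unfold ee
  rw [← _root_.pow_add]
  exact pow_add h _ m hm

/-- words ending with the letter `b` -/
def EndB (b L : M) : Prop := ∃ Y, L = Y * b
/-- words starting with `a b` -/
def StartAB (a b X : M) : Prop := ∃ Z, X = a * b * Z

theorem EndB.mul {b L : M} (K : M) (h : EndB b L) : EndB b (K * L) := by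
  obtain ⟨Y, rfl⟩ := h; exact ⟨K * Y, by simp only [mul_assoc]⟩

theorem StartAB.mul {a b X : M} (K : M) (h : StartAB a b X) : StartAB a b (X * K) := by
  obtain ⟨Y, rfl⟩ := h; exact ⟨Y * K, by simp only [mul_assoc]⟩

theorem endB_mul_pow {b L : M} (g : M) (hL : EndB b L) (hg : EndB b g) (n : ℕ) :
    EndB b (L * g ^ n) := by
  cases n with
  | zero => simpa using hL
  | succ n => rw [pow_succ, ← mul_assoc]; exact hg.mul _

theorem startAB_pow_mul {a b X : M} (g : M) (hg : StartAB a b g) (hX : StartAB a b X) (n : ℕ) :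
    StartAB a b (g ^ n * X) := by
  cases n with
  | zero => simpa using hX
  | succ n => rw [pow_succ', mul_assoc]; exact hg.mul _

theorem endB_alpha : EndB b (a * b) := ⟨a, rfl⟩
theorem endB_beta : EndB b (a * b * b) := ⟨a * b, rfl⟩
theorem startAB_alpha : StartAB a b (a * b) := ⟨1, by simp⟩
theorem startAB_beta : StartAB a b (a * b * b) := ⟨b, rfl⟩

theorem endB_ee (hm : 1 ≤ m) : EndB b (ee a b m) := by
  obtain ⟨i, rfl⟩ : ∃ i, m = i + 1 := ⟨m - 1, by omega⟩
  unfold ee
  rw [pow_succ]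
  exact ((endB_beta a b).mul _).mul _

theorem startAB_ee (hm : 1 ≤ m) : StartAB a b (ee a b m) := by
  obtain ⟨i, rfl⟩ : ∃ i, m = i + 1 := ⟨m - 1, by omega⟩
  unfold ee
  rw [pow_succ']
  exact ((startAB_alpha a b).mul _).mul _

/-- insertion of a unit between two letters `g = α ^ (k+1) β`. -/
theorem ins_g (h : ∀ z : M, z ^ 2 = z ^ (2 + m)) (hm : 1 ≤ m) (k : ℕ) (L Z : M)
    (hL : EndB b L) :
    L * ((a * b) ^ (k + 1) * (a * b * b)) * ((a * b) ^ (k + 1) * (a * b * b)) * Z =
      L * ((a * b) ^ (k + 1) * (a * b * b)) * ee a b m *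
        ((a * b) ^ (k + 1) * (a * b * b)) * Z := by
  obtain ⟨Y, hY⟩ := endB_mul_pow (a * b) hL (endB_alpha a b) k
  obtain ⟨X, hX⟩ : StartAB a b ((a * b) ^ k * (a * b * b) * Z) :=
    (startAB_pow_mul _ (startAB_alpha a b) (startAB_beta a b) k).mul Z
  have key := ctx_beta a b h hm 1 Y X
  rw [pow_one] at key
  calc L * ((a * b) ^ (k + 1) * (a * b * b)) * ((a * b) ^ (k + 1) * (a * b * b)) * Z
      = (L * (a * b) ^ k) * (a * b) * (a * b * b) * (a * b) *
          ((a * b) ^ k * (a * b * b) * Z) := by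
        rw [pow_succ (a * b) k]
        conv_lhs => rw [← pow_succ, pow_succ' (a * b) k]
        conv_rhs => rw [mul_assoc L, ← pow_succ (a * b) k, pow_succ' (a * b) k]
        simp only [mul_assoc]
    _ = Y * b * (a * b) * (a * b * b) * (a * b) * (a * b * X) := by rw [hY, hX]
    _ = Y * b * (a * b) * (a * b * b) * ((a * b) * (a * b * b)) ^ m * (a * b) *
          (a * b * X) := key
    _ = (L * (a * b) ^ k) * (a * b) * (a * b * b) * ee a b m * (a * b) *
          ((a * b) ^ k * (a * b * b) * Z) := by rw [← hY, ← hX]; rfl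
    _ = _ := by
        conv_lhs => rw [mul_assoc L, ← pow_succ (a * b) k]
        conv_rhs => rw [mul_assoc _ _ Z, pow_succ' (a * b) k]
        have : ((a * b) ^ (k+1)) = (a * b) * (a * b) ^ k := pow_succ' _ _
        simp only [mul_assoc, this]

theorem ins_g' (h : ∀ z : M, z ^ 2 = z ^ (2 + m)) (hm : 1 ≤ m) (k : ℕ) (L Z : M)
    (hZ : StartAB a b Z) :
    L * ((a * b) * (a * b * b) ^ (k + 1)) * ((a * b) * (a * b * b) ^ (k + 1)) * Z =
      L * ((a * b) * (a * b * b) ^ (k + 1)) * ee a b m *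
        ((a * b) * (a * b * b) ^ (k + 1)) * Z := by
  obtain ⟨Y, hY⟩ : EndB b (L * (a * b) * (a * b * b) ^ k) :=
    endB_mul_pow _ ((endB_alpha a b).mul L) (endB_beta a b) k
  obtain ⟨X, hX⟩ : StartAB a b ((a * b * b) ^ k * Z) :=
    startAB_pow_mul _ (startAB_beta a b) hZ k
  have key := ctx_alpha a b h hm 1 Y X
  rw [pow_one] at key
  have sh : (a * b * b) * (a * b) * ((a * b * b) * (a * b)) ^ m * (a * b * b) =
      (a * b * b) * ee a b m * (a * b) * (a * b * b) := by
    unfold ee
    have := shift_pow (a * b) (a * b * b) m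
    calc (a * b * b) * (a * b) * ((a * b * b) * (a * b)) ^ m * (a * b * b)
        = (a * b * b) * ((a * b) * ((a * b * b) * (a * b)) ^ m) * (a * b * b) := by
          simp only [mul_assoc]
      _ = _ := by rw [this]; simp only [mul_assoc]
  calc L * ((a * b) * (a * b * b) ^ (k + 1)) * ((a * b) * (a * b * b) ^ (k + 1)) * Z
      = (L * (a * b) * (a * b * b) ^ k) * (a * b * b) * (a * b) * (a * b * b) *
          ((a * b * b) ^ k * Z) := by
        conv_lhs => rw [mul_assoc L, pow_succ (a * b * b) k]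
        conv_lhs => enter [1, 2, 2]; rw [← pow_succ, pow_succ' (a * b * b) k]
        simp only [mul_assoc]
    _ = Y * b * (a * b * b) * (a * b) * (a * b * b) * (a * b * X) := by rw [hY, hX]
    _ = Y * b * (a * b * b) * (a * b) * ((a * b * b) * (a * b)) ^ m * (a * b * b) *
          (a * b * X) := key
    _ = (Y * b) * ((a * b * b) * (a * b) * ((a * b * b) * (a * b)) ^ m * (a * b * b)) *
          (a * b * X) := by simp only [mul_assoc]
    _ = (L * (a * b) * (a * b * b) ^ k) * ((a * b * b) * ee a b m * (a * b) * (a * b * b)) *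
          ((a * b * b) ^ k * Z) := by rw [sh, ← hY, ← hX]
    _ = _ := by
        have e1 : (a * b * b) ^ (k + 1) = (a * b * b) * (a * b * b) ^ k := pow_succ' _ _
        have e2 : (a * b * b) ^ (k + 1) = (a * b * b) ^ k * (a * b * b) := pow_succ _ _
        calc (L * (a * b) * (a * b * b) ^ k) * ((a * b * b) * ee a b m * (a * b) *
              (a * b * b)) * ((a * b * b) ^ k * Z)
            = L * ((a * b) * ((a * b * b) ^ k * (a * b * b))) * ee a b m *
              ((a * b) * ((a * b * b) * (a * b * b) ^ k)) * Z := by simp only [mul_assoc]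
          _ = _ := by rw [← e1, ← e2]

/-- `e g ^ m e = e` for `g = α ^ (k+1) β`. -/
theorem ee_g_pow (h : ∀ z : M, z ^ 2 = z ^ (2 + m)) (hm : 2 ≤ m) (k : ℕ) :
    ee a b m * ((a * b) ^ (k + 1) * (a * b * b)) ^ m * ee a b m = ee a b m := by
  obtain ⟨i, hi⟩ : ∃ i, m = (i + 1) + 1 := ⟨m - 2, by omega⟩
  set u := a * b * (a * b * b) with hu
  obtain ⟨Y, hY⟩ : EndB b (u ^ (i + 1)) := by
    rw [pow_succ, hu]; exact ((endB_beta a b).mul _).mul _
  have key := ctx_beta a b h (by omega) (k + 1) Y (b * u ^ (i + 1))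
  have e1 : ee a b m = u ^ (i + 1) * u := by
    unfold ee; rw [← pow_succ, hi]
  have e2 : ee a b m = u * u ^ (i + 1) := by
    unfold ee; rw [← pow_succ', hi]
  symm
  calc ee a b m = ee a b m * ee a b m := (ee_idem a b h hm).symm
    _ = (u ^ (i + 1) * u) * (u * u ^ (i + 1)) := by rw [← e1, ← e2]
    _ = u ^ (i + 1) * (a * b) * (a * b * b) * (a * b) * (a * b * (b * u ^ (i + 1))) := by
        rw [hu]; simp only [mul_assoc]
    _ = u ^ (i + 1) * (a * b) * (a * b * b) * ((a * b) ^ (k + 1) * (a * b * b)) ^ m *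
          (a * b) * (a * b * (b * u ^ (i + 1))) := by rw [← hY] at key; exact key
    _ = (u ^ (i + 1) * u) * ((a * b) ^ (k + 1) * (a * b * b)) ^ m * (u * u ^ (i + 1)) := by
        rw [hu]; simp only [mul_assoc]
    _ = _ := by rw [← e1, ← e2]

/-- `e g ^ m e = e` for `g = α β ^ (k+1)`. -/
theorem ee_g'_pow (h : ∀ z : M, z ^ 2 = z ^ (2 + m)) (hm : 2 ≤ m) (k : ℕ) :
    ee a b m * ((a * b) * (a * b * b) ^ (k + 1)) ^ m * ee a b m = ee a b m := by
  obtain ⟨i, hi⟩ : ∃ i, m = (i + 1) + 1 := ⟨m - 2, by omega⟩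
  set u := a * b * (a * b * b) with hu
  obtain ⟨Y, hY⟩ : EndB b (u ^ (i + 1) * (a * b)) := (endB_alpha a b).mul _
  obtain ⟨X, hX⟩ : StartAB a b (u ^ (i + 1)) := by
    rw [pow_succ', hu]; exact ((startAB_alpha a b).mul _).mul _
  have key := ctx_alpha a b h (by omega) (k + 1) Y X
  have e1 : ee a b m = u ^ (i + 1) * u := by
    unfold ee; rw [← pow_succ, hi]
  have e2 : ee a b m = u * u ^ (i + 1) := by
    unfold ee; rw [← pow_succ', hi]
  have sh := shift_pow (a * b) ((a * b * b) ^ (k + 1)) m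
  symm
  calc ee a b m = ee a b m * ee a b m := (ee_idem a b h hm).symm
    _ = (u ^ (i + 1) * u) * (u * u ^ (i + 1)) := by rw [← e1, ← e2]
    _ = (u ^ (i + 1) * (a * b)) * (a * b * b) * (a * b) * (a * b * b) * u ^ (i + 1) := by
        rw [hu]; simp only [mul_assoc]
    _ = Y * b * (a * b * b) * (a * b) * (a * b * b) * (a * b * X) := by rw [hY, ← hX]
    _ = Y * b * (a * b * b) * (a * b) * ((a * b * b) ^ (k + 1) * (a * b)) ^ m *
          (a * b * b) * (a * b * X) := key
    _ = (u ^ (i + 1) * (a * b)) * (a * b * b) * ((a * b) *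
          ((a * b * b) ^ (k + 1) * (a * b)) ^ m) * (a * b * b) * u ^ (i + 1) := by
        rw [hY, ← hX]; simp only [mul_assoc]
    _ = (u ^ (i + 1) * u) * ((a * b) * (a * b * b) ^ (k + 1)) ^ m * (u * u ^ (i + 1)) := by
        rw [sh, hu]; simp only [mul_assoc]
    _ = _ := by rw [← e1, ← e2]

/-- `w` is a unit of `e M e` with inverse `w'`. -/
structure Unit2 (e w w' : M) : Prop where
  left : e * w = w
  right : w * e = w
  left' : e * w' = w'
  right' : w' * e = w'
  mul : w * w' = e
  mul' : w' * w = e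

theorem unit_g (h : ∀ z : M, z ^ 2 = z ^ (2 + m)) (hm : 2 ≤ m) (k : ℕ) :
    Unit2 (ee a b m) (ee a b m * ((a * b) ^ (k + 1) * (a * b * b)) * ee a b m)
      (ee a b m * ((a * b) ^ (k + 1) * (a * b * b)) ^ (m - 1) * ee a b m) := by
  have he := ee_idem a b h hm
  set e := ee a b m with hedef
  set g := (a * b) ^ (k + 1) * (a * b * b) with hg
  have hgB : EndB b g := (endB_beta a b).mul _
  have hp : e * g ^ m * e = e := ee_g_pow a b h hm k
  obtain ⟨i, hi⟩ : ∃ i, m = (i + 1) + 1 := ⟨m - 2, by omega⟩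
  have hi' : m - 1 = i + 1 := by omega
  refine ⟨?_, ?_, ?_, ?_, ?_, ?_⟩
  · rw [← mul_assoc, ← mul_assoc, he]
  · rw [mul_assoc, he]
  · rw [← mul_assoc, ← mul_assoc, he]
  · rw [mul_assoc, he]
  · have k1 := ins_g a b h (by omega) k e (g ^ i * e) (endB_ee a b (by omega))
    rw [← hg, ← hedef] at k1
    calc e * g * e * (e * g ^ (m - 1) * e) = e * g * (e * e) * g ^ (m - 1) * e := by
          simp only [mul_assoc]
      _ = e * g * e * g * (g ^ i * e) := by
          rw [he, hi', pow_succ']; simp only [mul_assoc]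
      _ = e * g * g * (g ^ i * e) := k1.symm
      _ = e * g ^ m * e := by rw [hi, pow_succ', pow_succ']; simp only [mul_assoc]
      _ = e := hp
  · have k1 := ins_g a b h (by omega) k (e * g ^ i) e
      (endB_mul_pow g (endB_ee a b (by omega)) hgB i)
    rw [← hg, ← hedef] at k1
    calc e * g ^ (m - 1) * e * (e * g * e) = e * g ^ (m - 1) * (e * e) * g * e := by
          simp only [mul_assoc]
      _ = e * g ^ i * g * e * g * e := by
          rw [he, hi', pow_succ]; simp only [mul_assoc]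
      _ = e * g ^ i * g * g * e := k1.symm
      _ = e * g ^ m * e := by rw [hi, pow_succ, pow_succ]; simp only [mul_assoc]
      _ = e := hp

theorem unit_g' (h : ∀ z : M, z ^ 2 = z ^ (2 + m)) (hm : 2 ≤ m) (k : ℕ) :
    Unit2 (ee a b m) (ee a b m * ((a * b) * (a * b * b) ^ (k + 1)) * ee a b m)
      (ee a b m * ((a * b) * (a * b * b) ^ (k + 1)) ^ (m - 1) * ee a b m) := by
  have he := ee_idem a b h hm
  have hst := startAB_ee a b (m := m) (by omega)
  set e := ee a b m with hedef
  set g := (a * b) * (a * b * b) ^ (k + 1) with hg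
  have hgA : StartAB a b g := (startAB_alpha a b).mul _
  have hp : e * g ^ m * e = e := ee_g'_pow a b h hm k
  obtain ⟨i, hi⟩ : ∃ i, m = (i + 1) + 1 := ⟨m - 2, by omega⟩
  have hi' : m - 1 = i + 1 := by omega
  refine ⟨?_, ?_, ?_, ?_, ?_, ?_⟩
  · rw [← mul_assoc, ← mul_assoc, he]
  · rw [mul_assoc, he]
  · rw [← mul_assoc, ← mul_assoc, he]
  · rw [mul_assoc, he]
  · have k1 := ins_g' a b h (by omega) k e (g ^ i * e) (startAB_pow_mul g hgA hst i)
    rw [← hg, ← hedef] at k1
    calc e * g * e * (e * g ^ (m - 1) * e) = e * g * (e * e) * g ^ (m - 1) * e := by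
          simp only [mul_assoc]
      _ = e * g * e * g * (g ^ i * e) := by
          rw [he, hi', pow_succ']; simp only [mul_assoc]
      _ = e * g * g * (g ^ i * e) := k1.symm
      _ = e * g ^ m * e := by rw [hi, pow_succ', pow_succ']; simp only [mul_assoc]
      _ = e := hp
  · have k1 := ins_g' a b h (by omega) k (e * g ^ i) e hst
    rw [← hg, ← hedef] at k1
    calc e * g ^ (m - 1) * e * (e * g * e) = e * g ^ (m - 1) * (e * e) * g * e := by
          simp only [mul_assoc]
      _ = e * g ^ i * g * e * g * e := by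
          rw [he, hi', pow_succ]; simp only [mul_assoc]
      _ = e * g ^ i * g * g * e := k1.symm
      _ = e * g ^ m * e := by rw [hi, pow_succ, pow_succ]; simp only [mul_assoc]
      _ = e := hp

theorem Unit2.comp {e w w' z z' : M} (h1 : Unit2 e w w') (h2 : Unit2 e z z') :
    Unit2 e (w * z) (z' * w') := by
  refine ⟨?_, ?_, ?_, ?_, ?_, ?_⟩
  · rw [← mul_assoc, h1.left]
  · rw [mul_assoc, h2.right]
  · rw [← mul_assoc, h2.left']
  · rw [mul_assoc, h1.right']
  · calc w * z * (z' * w') = w * (z * z') * w' := by simp only [mul_assoc]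
      _ = e := by rw [h2.mul, h1.right, h1.mul]
  · calc z' * w' * (w * z) = z' * (w' * w) * z := by simp only [mul_assoc]
      _ = e := by rw [h1.mul', h2.right', h2.mul']

theorem Unit2.symm {e w w' : M} (h1 : Unit2 e w w') : Unit2 e w' w :=
  ⟨h1.left', h1.right', h1.left, h1.right, h1.mul', h1.mul⟩

end Algebra

/-! ### The labelled automaton -/

section Automaton

/-- `theta A n m`: the smallest congruence on `A*` containing all pairs `(x ^ n, x ^ (n + m))`. -/
def theta (A : Type) (n m : ℕ) : Con (FreeMonoid A) :=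
  conGen (fun a b : FreeMonoid A => ∃ x : FreeMonoid A, a = x ^ n ∧ b = x ^ (n + m))

/-- transitions: states 0 = (α,a), 1 = (β,a), 2 = (α,ab), 3 = (β,ab), 4 = boundary after β,
5 = dead; `false` is the letter `a`, `true` is the letter `b`. -/
def step : Bool → Fin 6 → Fin 6
  | false => ![5, 5, 0, 0, 1, 5]
  | true => ![2, 3, 4, 4, 4, 5]

variable {G : Type*} [Group G]

/-- labels -/
def lab (t x y : G) : Bool → Fin 6 → G
  | false => ![1, 1, x, t, 1, 1]
  | true => ![1, 1, 1, y, 1, 1]

/-- transformations of `Fin 6` with labels in `G` (acting on the right). -/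
@[ext] structure W (G : Type*) where
  F : Fin 6 → Fin 6
  l : Fin 6 → G

instance : Monoid (W G) where
  mul u v := ⟨fun q => v.F (u.F q), fun q => u.l q * v.l (u.F q)⟩
  one := ⟨fun q => q, fun _ => 1⟩
  mul_assoc u v w := by
    apply W.ext
    · rfl
    · funext q
      exact mul_assoc _ _ _
  one_mul u := by
    apply W.ext
    · rfl
    · funext q
      exact one_mul _
  mul_one u := by
    apply W.ext
    · rfl
    · funext q
      exact mul_one _

theorem W.mul_F (u v : W G) (q : Fin 6) : (u * v).F q = v.F (u.F q) := rfl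
theorem W.mul_l (u v : W G) (q : Fin 6) : (u * v).l q = u.l q * v.l (u.F q) := rfl
theorem W.one_F (q : Fin 6) : (1 : W G).F q = q := rfl
theorem W.one_l (q : Fin 6) : (1 : W G).l q = 1 := rfl

/-- at a fixed state, powers act by powers of the label. -/
theorem W.pow_fix (z : W G) (c : Fin 6) (hc : z.F c = c) (j : ℕ) :
    (z ^ j).F c = c ∧ (z ^ j).l c = (z.l c) ^ j := by
  induction j with
  | zero => exact ⟨rfl, by rw [pow_zero, pow_zero]; rfl⟩
  | succ j ih =>
    constructor
    · rw [pow_succ, W.mul_F, ih.1, hc]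
    · rw [pow_succ, W.mul_l, ih.1, ih.2, pow_succ]

theorem W.sq_eq {m : ℕ} (hG : ∀ g : G, g ^ m = 1) (z : W G)
    (hz : ∀ q, z.F (z.F (z.F q)) = z.F (z.F q)) : z ^ 2 = z ^ (2 + m) := by
  rw [_root_.pow_add]
  apply W.ext
  · funext q
    rw [W.mul_F, (W.pow_fix z _ ?_ m).1]
    rw [pow_two, W.mul_F]
    exact hz q
  · funext q
    have hc : z.F ((z ^ 2).F q) = (z ^ 2).F q := by
      rw [pow_two, W.mul_F]; exact hz q
    rw [W.mul_l, (W.pow_fix z _ hc m).2, hG, mul_one]

/-- the action of words -/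
def psi (t x y : G) : FreeMonoid Bool →* W G :=
  FreeMonoid.lift (fun c => ⟨step c, lab t x y c⟩)

theorem psi_of (t x y : G) (c : Bool) :
    psi t x y (FreeMonoid.of c) = ⟨step c, lab t x y c⟩ := FreeMonoid.lift_eval_of _ _

/-- the six maps of rank at least two of the transition monoid, or rank at most one -/
def Good (F : Fin 6 → Fin 6) : Prop :=
  F 5 = 5 ∧ ((∀ q, F q = q) ∨ (∀ q, F q = step false q) ∨ (∀ q, F q = step true q) ∨
    (∀ q, F q = step true (step false q)) ∨ (∀ q, F q = step false (step true q)) ∨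
    (∀ q, F q = step true (step false (step true q))) ∨
    (∃ c, ∀ q, F q = c ∨ F q = 5))

theorem step_dead (c : Bool) : step c 5 = 5 := by cases c <;> rfl

theorem Good.cube {F : Fin 6 → Fin 6} (h : Good F) : ∀ q, F (F (F q)) = F (F q) := by
  obtain ⟨h5, h | h | h | h | h | h | ⟨c, h⟩⟩ := h
  · intro q; simp only [h]
  · intro q; simp only [h]; fin_cases q <;> rfl
  · intro q; simp only [h]; fin_cases q <;> rfl
  · intro q; simp only [h]; fin_cases q <;> rfl
  · intro q; simp only [h]; fin_cases q <;> rfl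
  · intro q; simp only [h]; fin_cases q <;> rfl
  · intro q
    rcases h q with hq | hq
    · rw [hq]
      rcases h c with hc | hc
      · rw [hc]; rw [hc]
      · rw [hc, h5]
    · rw [hq, h5]; exact h5

theorem Good.step {F : Fin 6 → Fin 6} (h : Good F) (c : Bool) :
    Good (fun q => NTwo.step c (F q)) := by
  obtain ⟨h5, h⟩ := h
  refine ⟨by show NTwo.step c (F 5) = 5; rw [h5]; exact step_dead c, ?_⟩
  obtain h | h | h | h | h | h | ⟨d, h⟩ := h
  · cases c
    · right; left; intro q; show NTwo.step false (F q) = _; rw [h]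
    · right; right; left; intro q; show NTwo.step true (F q) = _; rw [h]
  · cases c
    · iterate 6 right
      refine ⟨5, fun q => Or.inl ?_⟩
      show NTwo.step false (F q) = _; rw [h]; fin_cases q <;> rfl
    · iterate 3 right
      left; intro q; show NTwo.step true (F q) = _; rw [h]
  · cases c
    · iterate 4 right
      left; intro q; show NTwo.step false (F q) = _; rw [h]
    · iterate 6 right
      refine ⟨4, fun q => ?_⟩
      show NTwo.step true (F q) = _ ∨ NTwo.step true (F q) = _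
      rw [h]; fin_cases q <;> first | exact Or.inl rfl | exact Or.inr rfl
  · cases c
    · iterate 6 right
      refine ⟨0, fun q => ?_⟩
      show NTwo.step false (F q) = _ ∨ NTwo.step false (F q) = _
      rw [h]; fin_cases q <;> first | exact Or.inl rfl | exact Or.inr rfl
    · iterate 6 right
      refine ⟨4, fun q => ?_⟩
      show NTwo.step true (F q) = _ ∨ NTwo.step true (F q) = _
      rw [h]; fin_cases q <;> first | exact Or.inl rfl | exact Or.inr rfl
  · cases c
    · iterate 6 right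
      refine ⟨5, fun q => Or.inl ?_⟩
      show NTwo.step false (F q) = _; rw [h]; fin_cases q <;> rfl
    · iterate 5 right
      left; intro q; show NTwo.step true (F q) = _; rw [h]
  · cases c
    · iterate 6 right
      refine ⟨0, fun q => ?_⟩
      show NTwo.step false (F q) = _ ∨ NTwo.step false (F q) = _
      rw [h]; fin_cases q <;> first | exact Or.inl rfl | exact Or.inr rfl
    · iterate 6 right
      refine ⟨4, fun q => ?_⟩
      show NTwo.step true (F q) = _ ∨ NTwo.step true (F q) = _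
      rw [h]; fin_cases q <;> first | exact Or.inl rfl | exact Or.inr rfl
  · iterate 6 right
    refine ⟨NTwo.step c d, fun q => ?_⟩
    show NTwo.step c (F q) = _ ∨ NTwo.step c (F q) = _
    rcases h q with hq | hq
    · left; rw [hq]
    · right; rw [hq]; exact step_dead c

theorem psi_mem (t x y : G) (w : FreeMonoid Bool) : Good (psi t x y w).F := by
  suffices h : ∀ (l : List Bool), Good (psi t x y (FreeMonoid.ofList l)).F from
    h (FreeMonoid.toList w)
  intro l
  induction l using List.reverseRecOn with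
  | nil =>
    have : psi t x y (FreeMonoid.ofList []) = 1 := map_one _
    rw [this]
    exact ⟨rfl, Or.inl fun q => rfl⟩
  | append_singleton l c ih =>
    have : psi t x y (FreeMonoid.ofList (l ++ [c])) =
        psi t x y (FreeMonoid.ofList l) * psi t x y (FreeMonoid.of c) := by
      rw [← map_mul]; rfl
    rw [this, psi_of]
    exact ih.step c

theorem psi_theta {m : ℕ} (hG : ∀ g : G, g ^ m = 1) (t x y : G) {u v : FreeMonoid Bool}
    (h : theta Bool 2 m u v) : psi t x y u = psi t x y v := by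
  have hle : theta Bool 2 m ≤ Con.ker (psi t x y) := by
    apply Con.conGen_le.mpr
    rintro _ _ ⟨w, rfl, rfl⟩
    rw [Con.ker_rel, map_pow, map_pow]
    exact W.sq_eq hG _ (psi_mem t x y w).cube
  exact hle h

/-- the letter `a` -/
abbrev la : FreeMonoid Bool := FreeMonoid.of false
/-- the letter `b` -/
abbrev lb : FreeMonoid Bool := FreeMonoid.of true

/-- the word `(ab·abb) ^ m` -/
def ew (m : ℕ) : FreeMonoid Bool := (la * lb * (la * lb * lb)) ^ m

theorem sq_quot (m : ℕ) (z : (theta Bool 2 m).Quotient) : z ^ 2 = z ^ (2 + m) := by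
  induction z using Con.induction_on with
  | H w =>
    show ((w ^ 2 : FreeMonoid Bool) : (theta Bool 2 m).Quotient) =
      ((w ^ (2 + m) : FreeMonoid Bool) : (theta Bool 2 m).Quotient)
    exact (Con.eq _).2 (ConGen.Rel.of _ _ ⟨w, rfl, rfl⟩)

/-- `g` is the label of a word which is a unit at `e`. -/
def Rep {G : Type*} [Group G] (m : ℕ) (t x y : G) (g : G) : Prop :=
  ∃ w w' : FreeMonoid Bool,
    Unit2 (((ew m : FreeMonoid Bool)) : (theta Bool 2 m).Quotient) w w' ∧
    (psi t x y w).F 4 = 4 ∧ (psi t x y w).l 4 = g ∧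
    (psi t x y w').F 4 = 4 ∧ (psi t x y w').l 4 = g⁻¹

variable {m : ℕ}

theorem Rep.mul {t x y g h : G} (hg : Rep m t x y g) (hh : Rep m t x y h) :
    Rep m t x y (g * h) := by
  obtain ⟨w, w', h1, h2, h3, h4, h5⟩ := hg
  obtain ⟨z, z', k1, k2, k3, k4, k5⟩ := hh
  refine ⟨w * z, z' * w', ?_, ?_, ?_, ?_, ?_⟩
  · rw [Con.coe_mul, Con.coe_mul]; exact h1.comp k1
  · rw [map_mul, W.mul_F, h2, k2]
  · rw [map_mul, W.mul_l, h2, h3, k3]
  · rw [map_mul, W.mul_F, k4, h4]
  · rw [map_mul, W.mul_l, k4, k5, h5, mul_inv_rev]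

theorem Rep.inv {t x y g : G} (hg : Rep m t x y g) : Rep m t x y g⁻¹ := by
  obtain ⟨w, w', h1, h2, h3, h4, h5⟩ := hg
  exact ⟨w', w, h1.symm, h4, h5, h2, by rw [h3, inv_inv]⟩

theorem psi_la (t x y : G) : psi t x y la = ⟨step false, lab t x y false⟩ := psi_of _ _ _ _
theorem psi_lb (t x y : G) : psi t x y lb = ⟨step true, lab t x y true⟩ := psi_of _ _ _ _

/-- `α` read in the states 4, 3, 2 -/
theorem psi_alpha (t x y : G) :
    ((psi t x y (la * lb)).F 4 = 3 ∧ (psi t x y (la * lb)).l 4 = 1) ∧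
    ((psi t x y (la * lb)).F 3 = 2 ∧ (psi t x y (la * lb)).l 3 = t) ∧
    ((psi t x y (la * lb)).F 2 = 2 ∧ (psi t x y (la * lb)).l 2 = x) := by
  refine ⟨⟨rfl, ?_⟩, ⟨rfl, ?_⟩, ⟨rfl, ?_⟩⟩ <;>
  · rw [map_mul, W.mul_l, psi_la, psi_lb]
    simp [lab, step]

theorem psi_beta (t x y : G) :
    ((psi t x y (la * lb * lb)).F 4 = 4 ∧ (psi t x y (la * lb * lb)).l 4 = y) ∧
    ((psi t x y (la * lb * lb)).F 3 = 4 ∧ (psi t x y (la * lb * lb)).l 3 = t) ∧
    ((psi t x y (la * lb * lb)).F 2 = 4 ∧ (psi t x y (la * lb * lb)).l 2 = x) := by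
  refine ⟨⟨rfl, ?_⟩, ⟨rfl, ?_⟩, ⟨rfl, ?_⟩⟩ <;>
  · rw [map_mul, map_mul, W.mul_l, W.mul_l, psi_la, psi_lb]
    simp [lab, step, W.mul_F]

theorem psi_u (t x y : G) :
    (psi t x y (la * lb * (la * lb * lb))).F 4 = 4 ∧
      (psi t x y (la * lb * (la * lb * lb))).l 4 = t := by
  have h1 := psi_alpha t x y
  have h2 := psi_beta t x y
  constructor
  · rw [map_mul, W.mul_F, h1.1.1, h2.2.1.1]
  · rw [map_mul, W.mul_l, h1.1.1, h1.1.2, h2.2.1.2, one_mul]

theorem psi_ew (hG : ∀ g : G, g ^ m = 1) (t x y : G) :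
    (psi t x y (ew m)).F 4 = 4 ∧ (psi t x y (ew m)).l 4 = 1 := by
  have h := W.pow_fix (psi t x y (la * lb * (la * lb * lb))) 4 (psi_u t x y).1 m
  unfold ew
  rw [map_pow]
  refine ⟨h.1, ?_⟩
  rw [h.2, hG]

/-- general form: a word `g` with `F 4 = 4`, label `γ`, such that `e g e` is a unit. -/
theorem rep_of (hm : 1 ≤ m) (hG : ∀ g : G, g ^ m = 1) (t x y : G) (g : FreeMonoid Bool) (γ : G)
    (h1 : (psi t x y g).F 4 = 4) (h2 : (psi t x y g).l 4 = γ)
    (hu : Unit2 (((ew m : FreeMonoid Bool)) : (theta Bool 2 m).Quotient)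
      ((ew m * g * ew m : FreeMonoid Bool) : (theta Bool 2 m).Quotient)
      ((ew m * g ^ (m - 1) * ew m : FreeMonoid Bool) : (theta Bool 2 m).Quotient)) :
    Rep m t x y γ := by
  have he := psi_ew hG t x y
  have hp := W.pow_fix (psi t x y g) 4 h1 (m - 1)
  refine ⟨_, _, hu, ?_, ?_, ?_, ?_⟩
  · rw [map_mul, map_mul, W.mul_F, W.mul_F, he.1, h1, he.1]
  · rw [map_mul, map_mul, W.mul_l, W.mul_l, he.1, W.mul_F, he.1, h1, he.2, h2, one_mul, mul_one]
  · rw [map_mul, map_mul, W.mul_F, W.mul_F, he.1, map_pow, hp.1, he.1]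
  · rw [map_mul, map_mul, W.mul_l, W.mul_l, he.1, W.mul_F, he.1, map_pow, hp.1, hp.2, he.2, h2,
      one_mul, mul_one]
    rw [eq_inv_iff_mul_eq_one, ← pow_succ]
    have : m - 1 + 1 = m := by omega
    rw [this, hG]

theorem rep_t (hm : 2 ≤ m) (hG : ∀ g : G, g ^ m = 1) (t x y : G) : Rep m t x y t := by
  refine rep_of (by omega) hG t x y ((la * lb) ^ (0 + 1) * (la * lb * lb)) t ?_ ?_ ?_
  · rw [zero_add, pow_one]; exact (psi_u t x y).1
  · rw [zero_add, pow_one]; exact (psi_u t x y).2
  · exact unit_g (la : (theta Bool 2 m).Quotient) (lb : (theta Bool 2 m).Quotient)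
      (sq_quot m) hm 0

theorem rep_tx (hm : 2 ≤ m) (hG : ∀ g : G, g ^ m = 1) (t x y : G) : Rep m t x y (t * x) := by
  have h1 := psi_alpha t x y
  have h2 := psi_beta t x y
  refine rep_of (by omega) hG t x y ((la * lb) ^ (1 + 1) * (la * lb * lb)) (t * x) ?_ ?_ ?_
  · rw [pow_succ, pow_one, map_mul, map_mul, W.mul_F, W.mul_F, h1.1.1, h1.2.1.1, h2.2.2.1]
  · rw [pow_succ, pow_one, map_mul, map_mul, W.mul_l, W.mul_l, W.mul_F, h1.1.1, h1.2.1.1,
      h1.1.2, h1.2.1.2, h2.2.2.2, one_mul]
  · exact unit_g (la : (theta Bool 2 m).Quotient) (lb : (theta Bool 2 m).Quotient)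
      (sq_quot m) hm 1

theorem rep_ty (hm : 2 ≤ m) (hG : ∀ g : G, g ^ m = 1) (t x y : G) : Rep m t x y (t * y) := by
  have h1 := psi_alpha t x y
  have h2 := psi_beta t x y
  have key : psi t x y ((la * lb) * (la * lb * lb) ^ (1 + 1)) =
      psi t x y (la * lb) * (psi t x y (la * lb * lb) * psi t x y (la * lb * lb)) := by
    rw [map_mul _ (la * lb), map_pow, pow_succ, pow_one]
  refine rep_of (by omega) hG t x y ((la * lb) * (la * lb * lb) ^ (1 + 1)) (t * y) ?_ ?_ ?_
  · rw [key, W.mul_F, W.mul_F, h1.1.1, h2.2.1.1, h2.1.1]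
  · rw [key, W.mul_l, W.mul_l, h1.1.1, h2.2.1.1,
      h1.1.2, h2.2.1.2, h2.1.2, one_mul]
  · exact unit_g' (la : (theta Bool 2 m).Quotient) (lb : (theta Bool 2 m).Quotient)
      (sq_quot m) hm 1

theorem rep_all (hm : 2 ≤ m) (hG : ∀ g : G, g ^ m = 1) (t x y : G)
    (hgen : Subgroup.closure {t, x, y} = ⊤) (g : G) : Rep m t x y g := by
  have ht := rep_t hm hG t x y
  have hx : Rep m t x y x := by
    have := ht.inv.mul (rep_tx hm hG t x y)
    rwa [inv_mul_cancel_left] at this
  have hy : Rep m t x y y := by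
    have := ht.inv.mul (rep_ty hm hG t x y)
    rwa [inv_mul_cancel_left] at this
  have hg : g ∈ Subgroup.closure {t, x, y} := by rw [hgen]; trivial
  induction hg using Subgroup.closure_induction with
  | mem z hz =>
    rcases hz with rfl | rfl | rfl
    · exact ht
    · exact hx
    · exact hy
  | one => have := ht.mul ht.inv; rwa [mul_inv_cancel] at this
  | mul z w _ _ hz hw => exact hz.mul hw
  | inv z _ hz => exact hz.inv

/-- If the class of `(ab·abb)^m` modulo `x^2 = x^(2+m)` is accepted by a finite automaton, every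
group of exponent dividing `m` generated by three elements is finite. -/
theorem finite_of_regular (hm : 2 ≤ m) (hG : ∀ g : G, g ^ m = 1) (t x y : G)
    (hgen : Subgroup.closure {t, x, y} = ⊤) (σ : Type*) [Finite σ] (D : DFA Bool σ)
    (hD : ∀ v : List Bool, v ∈ D.accepts ↔ theta Bool 2 m (FreeMonoid.ofList v) (ew m)) :
    Finite G := by
  choose w w' hu hF hl hF' hl' using rep_all hm hG t x y hgen
  refine Finite.of_injective (fun g : G => D.eval (FreeMonoid.toList (w g))) ?_
  intro g h hgh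
  have h1 : theta Bool 2 m (w g * w' g) (ew m) := (Con.eq _).1 (hu g).mul
  have h2 : FreeMonoid.toList (w g * w' g) ∈ D.accepts := (hD _).2 h1
  have h3 : FreeMonoid.toList (w h * w' g) ∈ D.accepts := by
    rw [FreeMonoid.toList_mul, DFA.mem_accepts, DFA.eval, DFA.evalFrom_of_append] at h2 ⊢
    have hgh' : D.evalFrom D.start (FreeMonoid.toList (w g)) =
        D.evalFrom D.start (FreeMonoid.toList (w h)) := hgh
    rw [← hgh']
    exact h2
  have h4 : theta Bool 2 m (w h * w' g) (ew m) := (hD _).1 h3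
  have h5 := psi_theta hG t x y h4
  have h6 : (psi t x y (w h * w' g)).l 4 = (psi t x y (ew m)).l 4 := by rw [h5]
  rw [map_mul, W.mul_l, hF, hl, hl', (psi_ew hG t x y).2] at h6
  exact (mul_inv_eq_one.1 h6).symm

/-- What an infinite group of bounded exponent with three generators gives: the negation of the
assertion that all congruence classes are regular (a counterexample with `n = 2`). -/
theorem not_all_regular {G : Type*} [Group G] [Infinite G] {m : ℕ} (hm : 2 ≤ m)
    (hG : ∀ g : G, g ^ m = 1) (t x y : G) (hgen : Subgroup.closure {t, x, y} = ⊤) :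
    ¬ (∀ (A : Type) [Fintype A] (n m : ℕ), 0 < n → 0 < m →
      ∀ w : FreeMonoid A,
        ∃ (σ : Type) (_ : Fintype σ) (M : DFA A σ),
          M.accepts =
            {v : List A |
              conGen (fun a b : FreeMonoid A => ∃ x : FreeMonoid A, a = x ^ n ∧ b = x ^ (n + m))
                (FreeMonoid.ofList v) w}) := by
  intro H
  obtain ⟨σ, hσ, D, hD⟩ := H Bool 2 m (by norm_num) (by omega) (ew m)
  have := hσ
  have : Finite G := finite_of_regular hm hG t x y hgen σ D (fun v => by rw [hD]; rfl)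
  exact not_finite G

/-- The same with two generators. -/
theorem not_all_regular' {G : Type*} [Group G] [Infinite G] {m : ℕ} (hm : 2 ≤ m)
    (hG : ∀ g : G, g ^ m = 1) (t x : G) (hgen : Subgroup.closure {t, x} = ⊤) :
    ¬ (∀ (A : Type) [Fintype A] (n m : ℕ), 0 < n → 0 < m →
      ∀ w : FreeMonoid A,
        ∃ (σ : Type) (_ : Fintype σ) (M : DFA A σ),
          M.accepts =
            {v : List A |
              conGen (fun a b : FreeMonoid A => ∃ x : FreeMonoid A, a = x ^ n ∧ b = x ^ (n + m))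
                (FreeMonoid.ofList v) w}) :=
  not_all_regular hm hG t x x (by simpa using hgen)

end Automaton

end Pool.Agent.Lib.MP_604f1e_lc.NTwo
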